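import Pool.Agent.Y602.CIS

/-!
# CIS RECOGNITION is coNP-complete

The input is a finite simple graph, given by an adjacency matrix `M : List (List Bool)` (`matGraph M`
is the graph); the question is whether every maximal clique meets every maximal stable set.

Reduction from the complement of 3SAT.  The vertices are the pairs `(i, a)`, meaning that the
variable `i` has the value `a`, and the triples `(i, k, b)` such that the value `b` of the variable
`i` does not satisfy the clause `k`, meaning that the clause `k` is falsified and the variable `i`
has the value `b`; adjacency is contradiction.  If the formula is unsatisfiable, then the maximal
stable sets are the pairs of an assignment and a clause falsified by it, and all of them meet all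
maximal cliques.  If `τ` is a satisfying assignment, then the pairs `(i, τ i)` form a maximal stable
set, which is disjoint from the maximal clique of `(d, not (τ d))` and the triples `(d, k, τ d)`,
where `d` is a dummy variable.
-/

set_option autoImplicit false

namespace Pool.Agent.Results.MP_bb030f_lc.CISCoNPComplete

open Pool.Agent.NPC Pool.Agent.H622R2 Pool.Agent.Y602

/-- **CIS RECOGNITION is coNP-complete** under polynomial-time many-one reductions. -/
theorem result : InCoNPP (fun M : List (List Bool) => IsCIS (matGraph M)) ∧
    CoNPHardP (fun M : List (List Bool) => IsCIS (matGraph M)) :=
  ⟨inCoNP_cis, hardI_not_cis.toCoNPHardP⟩

end Pool.Agent.Results.MP_bb030f_lc.CISCoNPComplete
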